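import Pool.Agent.H25.PG.Targets

/-!
# Restricted partition functions (MP_9198c9_nt): row DL

Every pair of a lower and an upper density.
-/

set_option autoImplicit false

open Finset Filter

namespace Pool.Agent.H61.PG

open Pool.Agent.H55.PM Pool.Agent.H25.PG

/-- the scales -/
def S (t : ℕ) : ℕ := 2 ^ (2 * 4 ^ t)

theorem S_pos (t : ℕ) : 0 < S t := Nat.pos_of_ne_zero (by unfold S; positivity)

theorem S_mono : Monotone S := by
  intro a b h
  unfold S
  exact Nat.pow_le_pow_right (by norm_num) (Nat.mul_le_mul_left 2 (Nat.pow_le_pow_right (by norm_num) h))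

theorem lt_four_pow (t : ℕ) : t < 4 ^ t := Nat.lt_pow_self (by norm_num)

theorem lt_S (t : ℕ) : t < S t := by
  unfold S
  have h1 := lt_four_pow t
  have h2 : 2 * 4 ^ t < 2 ^ (2 * 4 ^ t) := Nat.lt_pow_self (by norm_num)
  omega

/-- the scales grow quickly -/
theorem S_ratio (t : ℕ) : 2 ^ t * S t ≤ S (t + 1) := by
  unfold S
  rw [← pow_add]
  apply Nat.pow_le_pow_right (by norm_num)
  have h1 := lt_four_pow t
  have h2 : 4 ^ (t + 1) = 4 * 4 ^ t := by ring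
  omega

theorem S_ratio_real (t : ℕ) : (S t : ℝ) ≤ (S (t + 1) : ℝ) / 2 ^ t := by
  rw [le_div_iff₀ (by positivity)]
  have := S_ratio t
  have h : ((2 ^ t * S t : ℕ) : ℝ) ≤ (S (t + 1) : ℝ) := by exact_mod_cast this
  push_cast at h
  linarith

theorem dc_le (k : ℕ → ℕ) (J : ℕ) : dc k J ≤ J := by
  unfold dc
  calc (SS (E1 k) (EV V4) ∩ Set.Iio J).ncard ≤ (Set.Iio J).ncard :=
        Set.ncard_le_ncard Set.inter_subset_right (Set.finite_Iio J)
    _ = J := by
        rw [Set.ncard_eq_toFinset_card']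
        simp

/-- the densities -/
noncomputable def xi (β α : ℝ) (t : ℕ) : ℝ := if Even t then β else α

/-- the thresholds -/
noncomputable def kk (β α : ℝ) (t : ℕ) : ℕ := ⌊2 ^ t * xi β α t⌋₊

theorem xi_mem {β α : ℝ} (hba : β ≤ α) (t : ℕ) : β ≤ xi β α t ∧ xi β α t ≤ α := by
  unfold xi
  split
  · exact ⟨le_refl _, hba⟩
  · exact ⟨hba, le_refl _⟩

theorem kk_le {β α : ℝ} (h0 : 0 ≤ β) (hba : β ≤ α) (h1 : α ≤ 1) (t : ℕ) : kk β α t ≤ 2 ^ t := by
  unfold kk
  have hx := xi_mem hba t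
  have h : ⌊2 ^ t * xi β α t⌋₊ ≤ ⌊((2 ^ t : ℕ) : ℝ)⌋₊ := by
    apply Nat.floor_le_floor
    push_cast
    have : (2 : ℝ) ^ t * xi β α t ≤ 2 ^ t * 1 :=
      mul_le_mul_of_nonneg_left (le_trans hx.2 h1) (by positivity)
    linarith
  rwa [Nat.floor_natCast] at h

theorem kk_near {β α : ℝ} (h0 : 0 ≤ β) (hba : β ≤ α) (t : ℕ) :
    (kk β α t : ℝ) / 2 ^ t ≤ xi β α t ∧ xi β α t ≤ (kk β α t : ℝ) / 2 ^ t + 1 / 2 ^ t := by
  have hx := xi_mem hba t
  have hp : (0 : ℝ) < 2 ^ t := by positivity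
  have hnn : 0 ≤ (2 : ℝ) ^ t * xi β α t := mul_nonneg hp.le (le_trans h0 hx.1)
  constructor
  · rw [div_le_iff₀ hp]
    have := Nat.floor_le hnn
    unfold kk
    linarith
  · rw [← add_div, le_div_iff₀ hp]
    have := (Nat.lt_floor_add_one ((2 : ℝ) ^ t * xi β α t)).le
    unfold kk
    linarith

section Main

variable {β α : ℝ}

/-- the density at the scales -/
theorem at_scale (hDE : T_DE) (h0 : 0 ≤ β) (hba : β ≤ α) (h1 : α ≤ 1) (t : ℕ) (ht : 2 ≤ t) :
    |(dc (kk β α) (S (t + 1)) : ℝ) - xi β α t * S (t + 1)| ≤ 3 / 2 ^ t * S (t + 1) := by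
  have hDE' := hDE (kk β α) (kk_le h0 hba h1) t (S (t + 1)) ht (S_mono (Nat.le_succ t))
    (le_refl _)
  have hS : (2 ^ (2 * 4 ^ t) : ℕ) = S t := rfl
  have hSr : ((2 : ℝ) ^ (2 * 4 ^ t)) = (S t : ℝ) := by unfold S; push_cast; ring
  rw [hS, hSr] at hDE'
  obtain ⟨hk1, hk2⟩ := kk_near h0 hba t
  have hx := xi_mem hba t
  have hr := S_ratio_real t
  have hSt : (0 : ℝ) < S t := by exact_mod_cast S_pos t
  have hSt1 : (0 : ℝ) < S (t + 1) := by exact_mod_cast S_pos (t + 1)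
  have hp : (0 : ℝ) < 2 ^ t := by positivity
  have hd0 : (0 : ℝ) ≤ dc (kk β α) (S t) := Nat.cast_nonneg _
  have hd1 : (dc (kk β α) (S t) : ℝ) ≤ S t := by exact_mod_cast dc_le _ _
  set κ : ℝ := (kk β α t : ℝ) / 2 ^ t with hκ
  have hκ0 : 0 ≤ κ := by positivity
  have hκ1 : κ ≤ 1 := by linarith
  have e1 : κ * S t ≤ S t := by nlinarith
  have e2 : 0 ≤ κ * S t := by positivity
  have e3 : (xi β α t - κ) * S (t + 1) ≤ S (t + 1) / 2 ^ t := by
    have : (xi β α t - κ) * S (t + 1) ≤ (1 / 2 ^ t) * S (t + 1) :=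
      mul_le_mul_of_nonneg_right (by linarith) hSt1.le
    calc (xi β α t - κ) * S (t + 1) ≤ (1 / 2 ^ t) * S (t + 1) := this
      _ = S (t + 1) / 2 ^ t := by ring
  have e4 : 0 ≤ (xi β α t - κ) * S (t + 1) := mul_nonneg (by linarith) hSt1.le
  have e5 : (3 : ℝ) / 2 ^ t * S (t + 1) = 3 * (S (t + 1) / 2 ^ t) := by ring
  rw [abs_le] at hDE' ⊢
  obtain ⟨hl, hu⟩ := hDE'
  rw [e5]
  constructor
  · nlinarith
  · nlinarith

/-- the density between the scales -/
theorem between (hDE : T_DE) (h0 : 0 ≤ β) (hba : β ≤ α) (h1 : α ≤ 1) (t J : ℕ) (ht : 2 ≤ t)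
    (hJ1 : S (t + 1) ≤ J) (hJ2 : J ≤ S (t + 2)) :
    (β - 4 / 2 ^ t) * J ≤ dc (kk β α) J ∧ (dc (kk β α) J : ℝ) ≤ (α + 4 / 2 ^ t) * J := by
  have hDE' := hDE (kk β α) (kk_le h0 hba h1) (t + 1) J (by omega) hJ1 hJ2
  have hS : (2 ^ (2 * 4 ^ (t + 1)) : ℕ) = S (t + 1) := rfl
  have hSr : ((2 : ℝ) ^ (2 * 4 ^ (t + 1))) = (S (t + 1) : ℝ) := by unfold S; push_cast; ring
  rw [hS, hSr] at hDE'
  have hat := at_scale hDE h0 hba h1 t ht
  obtain ⟨hk1, hk2⟩ := kk_near h0 hba (t + 1)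
  have hx := xi_mem hba t
  have hx' := xi_mem hba (t + 1)
  have hSt1 : (0 : ℝ) < S (t + 1) := by exact_mod_cast S_pos (t + 1)
  have hp : (0 : ℝ) < 2 ^ t := by positivity
  have hJr : (S (t + 1) : ℝ) ≤ J := by exact_mod_cast hJ1
  have hJ0 : (0 : ℝ) < J := lt_of_lt_of_le hSt1 hJr
  set κ : ℝ := (kk β α (t + 1) : ℝ) / 2 ^ (t + 1) with hκ
  have hhalf : (1 : ℝ) / 2 ^ (t + 1) = (1 / 2) * (1 / 2 ^ t) := by rw [pow_succ]; field_simp
  have hJhalf : (J : ℝ) / 2 ^ (t + 1) = (1 / 2) * (J / 2 ^ t) := by rw [pow_succ]; field_simp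
  rw [hhalf] at hk2
  rw [hJhalf] at hDE'
  have hq : (0 : ℝ) < 1 / 2 ^ t := by positivity
  set q : ℝ := 1 / 2 ^ t with hqd
  have a1 : (J : ℝ) / 2 ^ t = q * J := by rw [hqd]; ring
  have a2 : (4 : ℝ) / 2 ^ t = 4 * q := by rw [hqd]; ring
  have a3 : (3 : ℝ) / 2 ^ t = 3 * q := by rw [hqd]; ring
  rw [a1] at hDE'
  rw [a3] at hat
  rw [a2]
  have hd : 0 ≤ (J : ℝ) - S (t + 1) := by linarith
  have b1 : (xi β α (t + 1) - κ) * (J - S (t + 1)) ≤ (1 / 2 * q) * (J - S (t + 1)) :=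
    mul_le_mul_of_nonneg_right (by linarith) hd
  have b2 : 0 ≤ (xi β α (t + 1) - κ) * (J - S (t + 1)) := mul_nonneg (by linarith) hd
  have b3 : q * S (t + 1) ≤ q * J := mul_le_mul_of_nonneg_left hJr hq.le
  have b4 : q * (J - S (t + 1)) ≤ q * J := mul_le_mul_of_nonneg_left (by linarith) hq.le
  have c1 : β * (J - S (t + 1)) ≤ xi β α (t + 1) * (J - S (t + 1)) :=
    mul_le_mul_of_nonneg_right hx'.1 hd
  have c2 : xi β α (t + 1) * (J - S (t + 1)) ≤ α * (J - S (t + 1)) :=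
    mul_le_mul_of_nonneg_right hx'.2 hd
  have c3 : β * S (t + 1) ≤ xi β α t * S (t + 1) := mul_le_mul_of_nonneg_right hx.1 hSt1.le
  have c4 : xi β α t * S (t + 1) ≤ α * S (t + 1) := mul_le_mul_of_nonneg_right hx.2 hSt1.le
  rw [abs_le] at hDE' hat
  obtain ⟨hl, hu⟩ := hDE'
  obtain ⟨hl', hu'⟩ := hat
  constructor
  · nlinarith
  · nlinarith

end Main

theorem pf_DL (hDE : T_DE) : T_DL := by
  intro β α h0 hba h1
  refine ⟨kk β α, ?_⟩
  intro ε hε
  -- a scale beyond which the errors are small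
  obtain ⟨T, hT⟩ : ∃ T : ℕ, (4 : ℝ) / 2 ^ T ≤ ε := by
    obtain ⟨T, hT⟩ := pow_unbounded_of_one_lt (4 / ε) (by norm_num : (1 : ℝ) < 2)
    refine ⟨T, ?_⟩
    rw [div_le_iff₀ (by positivity)]
    rw [div_lt_iff₀ hε] at hT
    linarith
  have hsmall : ∀ t : ℕ, T ≤ t → (4 : ℝ) / 2 ^ t ≤ ε := by
    intro t ht
    refine le_trans ?_ hT
    apply div_le_div_of_nonneg_left (by norm_num) (by positivity)
    exact pow_le_pow_right₀ (by norm_num) ht
  have hsmall3 : ∀ t : ℕ, T ≤ t → (3 : ℝ) / 2 ^ t ≤ ε := by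
    intro t ht
    refine le_trans ?_ (hsmall t ht)
    apply div_le_div_of_nonneg_right (by norm_num) (by positivity)
  refine ⟨?_, ?_, ?_⟩
  · filter_upwards [eventually_ge_atTop (S (T + 3))] with J hJ
    have hex : ∃ s, J < S s := ⟨J, lt_S J⟩
    classical
    have hs := Nat.find_spec hex
    have hmin := fun m => Nat.find_min hex (m := m)
    set s := Nat.find hex with hsd
    have hsT : T + 3 < s := by
      by_contra hcon
      push Not at hcon
      have := S_mono hcon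
      omega
    obtain ⟨t, ht⟩ : ∃ t, s = t + 2 := ⟨s - 2, by omega⟩
    rw [ht] at hs
    have hJ1 : S (t + 1) ≤ J := by
      have := hmin (t + 1) (by omega)
      omega
    obtain ⟨hl, hu⟩ := between hDE h0 hba h1 t J (by omega) hJ1 hs.le
    have hsm := hsmall t (by omega)
    have hJ0 : (0 : ℝ) ≤ J := Nat.cast_nonneg _
    constructor
    · refine le_trans ?_ hl
      apply mul_le_mul_of_nonneg_right _ hJ0
      linarith
    · refine le_trans hu ?_
      apply mul_le_mul_of_nonneg_right _ hJ0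
      linarith
  · rw [frequently_atTop]
    intro N
    refine ⟨S (2 * (N + T + 1) + 1), ?_, ?_⟩
    · have := lt_S (2 * (N + T + 1) + 1)
      omega
    · have hat := at_scale hDE h0 hba h1 (2 * (N + T + 1)) (by omega)
      have hxi : xi β α (2 * (N + T + 1)) = β := by
        unfold xi
        rw [if_pos (even_two_mul _)]
      rw [hxi, abs_le] at hat
      have hsm := hsmall3 (2 * (N + T + 1)) (by omega)
      have hS0 : (0 : ℝ) ≤ S (2 * (N + T + 1) + 1) := Nat.cast_nonneg _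
      have := mul_le_mul_of_nonneg_right hsm hS0
      nlinarith [hat.2]
  · rw [frequently_atTop]
    intro N
    refine ⟨S (2 * (N + T + 1) + 1 + 1), ?_, ?_⟩
    · have := lt_S (2 * (N + T + 1) + 1 + 1)
      omega
    · have hat := at_scale hDE h0 hba h1 (2 * (N + T + 1) + 1) (by omega)
      have hxi : xi β α (2 * (N + T + 1) + 1) = α := by
        unfold xi
        rw [if_neg]
        simp
      rw [hxi, abs_le] at hat
      have hsm := hsmall3 (2 * (N + T + 1) + 1) (by omega)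
      have hS0 : (0 : ℝ) ≤ S (2 * (N + T + 1) + 1 + 1) := Nat.cast_nonneg _
      have := mul_le_mul_of_nonneg_right hsm hS0
      nlinarith [hat.1]

end Pool.Agent.H61.PG
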